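import Mathlib
import Pool.Agent.Results.MP_d94893_lc.LineFails

open MeasureTheory Set Filter
open Pool.Agent.Results.MP_75ee99_lc.NotMonotone Pool.Agent.Results.MP_d94893_lc.LineFails

namespace Pool.Agent.Results.MP_1aa7fe_lc.Below

/-- a trajectory on the half-line, given by its turning points -/
def IsHalf (t : ℕ → ℝ) : Prop :=
  t 0 = 0 ∧ (∀ i, 0 ≤ t i) ∧ (∀ i, t (2 * i) < t (2 * i + 1)) ∧
    (∀ i, t (2 * i + 2) < t (2 * i + 1)) ∧ Tendsto (tau t) atTop atTop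

/-- competitive ratio on the half-line -/
noncomputable def CH (p : ℝ) (t : ℕ → ℝ) : ENNReal :=
  ⨆ (d : ℝ) (_ : 1 ≤ d), ENNReal.ofReal p * ETc p t d / ENNReal.ofReal d

def Good (y : ℕ → ℝ) (h : ℝ) (j0 : ℕ) (c : ℝ) : Prop :=
  0 ≤ c ∧ ∃ J : ℕ → ℕ, StrictMono J ∧ j0 ≤ J 0 ∧ (∀ k, h ∈ uIcc (y (J k)) (y (J k + 1))) ∧
    ∑' k, ENNReal.ofReal (1 / 3 * (2 / 3 : ℝ) ^ k) * ENNReal.ofReal (tau y (J k) + |h - y (J k)|) ≤
      ENNReal.ofReal c

lemma cons {y : ℕ → ℝ} {h : ℝ} {j0 : ℕ} {c : ℝ} (j : ℕ) (a : ℝ) (hj : j < j0)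
    (hm : h ∈ uIcc (y j) (y (j + 1))) (ha : tau y j + |h - y j| ≤ a) (hg : Good y h j0 c) :
    Good y h j (1 / 3 * a + 2 / 3 * c) := by
  obtain ⟨c0, J, J1, J2, J3, J4⟩ := hg
  have a0 : 0 ≤ a := le_trans (add_nonneg (tau_nn _ _) (abs_nonneg _)) ha
  refine ⟨by positivity, fun k => Nat.casesOn k j J, strictMono_nat_of_lt_succ ?_, le_rfl, ?_, ?_⟩
  · rintro (_ | k)
    · exact hj.trans_le J2
    · exact J1 (Nat.lt_succ_self k)
  · rintro (_ | k)
    · exact hm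
    · exact J3 k
  · rw [tsum_eq_zero_add' ENNReal.summable, ENNReal.ofReal_add (p := 1 / 3 * a) (by positivity) (by positivity)]
    refine add_le_add ?_ ?_
    · rw [pow_zero, mul_one, ENNReal.ofReal_mul (p := 1 / 3) (q := a) (by norm_num)]
      exact mul_le_mul_right (ENNReal.ofReal_le_ofReal ha) _
    · rw [ENNReal.ofReal_mul (p := 2 / 3) (q := c) (by norm_num)]
      refine le_trans (le_of_eq ?_) (mul_le_mul_right J4 _)
      rw [← ENNReal.tsum_mul_left]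
      congr 1; ext k
      rw [← mul_assoc, ← ENNReal.ofReal_mul (p := 2 / 3) (by norm_num)]
      congr 2; ring

lemma good_le {y : ℕ → ℝ} (hy : Tendsto (tau y) atTop atTop) {h : ℝ} {j0 : ℕ} {c : ℝ}
    (hg : Good y h j0 c) : ETc (1 / 3) y h ≤ ENNReal.ofReal c := by
  obtain ⟨c0, J, J1, J2, J3, J4⟩ := hg
  set s : ℕ → ℝ := fun k => tau y (J k) + |h - y (J k)| with hs
  have fin : ∀ t, (passes y h ∩ Iic t).Finite := by
    intro t
    obtain ⟨N, hN⟩ := eventually_atTop.1 (hy.eventually_gt_atTop t)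
    refine ((finite_lt_nat N).image fun i => tau y i + |h - y i|).subset ?_
    rintro _ ⟨⟨i, -, rfl⟩, hi⟩
    refine ⟨i, ?_, rfl⟩
    by_contra hc
    have := hN i (not_lt.1 hc)
    have hi' : tau y i + |h - y i| ≤ t := hi
    linarith [abs_nonneg (h - y i)]
  have s1 : ∀ k, s k ≤ tau y (J k + 1) := by
    intro k; rw [tau_succ]; have := abs_sub_left_of_mem_uIcc (J3 k); simp only [hs]; linarith
  have s2 : ∀ k l, k < l → tau y (J k + 1) ≤ s l := by
    intro k l hkl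
    have := tau_mono y (show J k + 1 ≤ J l from J1 hkl)
    simp only [hs]; linarith [abs_nonneg (h - y (J l))]
  have sm : Monotone s := monotone_nat_of_le_succ fun k => (s1 k).trans (s2 k _ (Nat.lt_succ_self k))
  have hpt : ∀ t, ENNReal.ofReal (surv (1 / 3) y h t) ≤
      ∑' k, (Iio (s k)).indicator (fun _ => ENNReal.ofReal (1 / 3 * (2 / 3 : ℝ) ^ k)) t := by
    intro t
    unfold surv
    split_ifs with hT
    · simp
    rw [show (1 - 1 / 3 : ℝ) = 2 / 3 by norm_num]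
    set m := (passes y h ∩ Iic t).ncard with hm
    have hlt : ∀ k, t < s (k + m) := by
      intro k
      by_contra hc
      push Not at hc
      have hsub : s '' (Finset.range (k + m + 1) : Set ℕ) ⊆ passes y h ∩ Iic t := by
        rintro _ ⟨j, hj, rfl⟩
        simp only [Finset.coe_range, mem_Iio] at hj
        exact ⟨⟨J j, J3 j, rfl⟩, (sm (by omega)).trans hc⟩
      have hlt : ∀ a b, a < b → b ≤ k + m → s a ≠ s b := by
        intro a b hab hb e
        have e1 : s a = tau y (J a + 1) := le_antisymm (s1 a) (e ▸ s2 a b hab)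
        refine hT ⟨J a, ?_, e1 ▸ e ▸ (sm hb).trans hc⟩
        rw [tau_succ] at e1
        have e2 : |h - y (J a)| = |y (J a + 1) - y (J a)| := by simp only [hs] at e1; linarith
        rcases mem_uIcc.1 (J3 a) with h' | h'
        · rw [abs_of_nonneg (by linarith [h'.1]), abs_of_nonneg (by linarith [h'.1, h'.2])] at e2
          linarith
        · rw [abs_of_nonpos (by linarith [h'.2]), abs_of_nonpos (by linarith [h'.1, h'.2])] at e2
          linarith
      have hinj : InjOn s (Finset.range (k + m + 1) : Set ℕ) := by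
        intro a ha b hb e
        simp only [Finset.coe_range, mem_Iio] at ha hb
        rcases lt_trichotomy a b with h' | h' | h'
        · exact absurd e (hlt a b h' (by omega))
        · exact h'
        · exact absurd e.symm (hlt b a h' (by omega))
      have := Set.ncard_le_ncard hsub (fin t)
      rw [hinj.ncard_image, Set.ncard_coe_finset, Finset.card_range] at this
      omega
    have h1 : HasSum (fun k : ℕ => 1 / 3 * (2 / 3 : ℝ) ^ (k + m)) ((2 / 3 : ℝ) ^ m) := by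
      have := (hasSum_geometric_of_lt_one (r := (2 / 3 : ℝ)) (by norm_num) (by norm_num)).mul_left
        (1 / 3 * (2 / 3 : ℝ) ^ m)
      rw [show 1 / 3 * (2 / 3 : ℝ) ^ m * (1 - 2 / 3)⁻¹ = (2 / 3) ^ m by norm_num; ring] at this
      rw [show (fun k : ℕ => 1 / 3 * (2 / 3 : ℝ) ^ (k + m)) =
        fun k : ℕ => 1 / 3 * (2 / 3 : ℝ) ^ m * (2 / 3) ^ k from funext fun k => by ring]
      exact this
    rw [← h1.tsum_eq, ENNReal.ofReal_tsum_of_nonneg (fun k => by positivity) h1.summable]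
    refine le_trans (le_of_eq ?_) (ENNReal.tsum_comp_le_tsum_of_injective (f := fun k => k + m)
      (add_left_injective m) _)
    congr 1; ext k
    rw [indicator_of_mem (show t ∈ Iio (s (k + m)) from hlt k)]
  refine (lintegral_mono hpt).trans ?_
  rw [lintegral_tsum (fun k => (measurable_const.indicator measurableSet_Iio).aemeasurable)]
  simp only [ind_int]
  exact J4

noncomputable def U (i : ℕ) : ℝ := (3 / 2) ^ i / 54

noncomputable def Z (n : ℕ) : ℝ :=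
  (if n % 6 = 0 then 0 else if n % 6 = 1 then 32 else if n % 6 = 2 then 28 else if n % 6 = 3 then 63
    else if n % 6 = 4 then 54 else 81) * U (n / 6)

lemma Upos (i : ℕ) : 0 < U i := by unfold U; positivity

lemma Us (i : ℕ) : U (i + 1) = 3 / 2 * U i := by unfold U; ring

lemma Zv (i : ℕ) : Z (6 * i) = 0 ∧ Z (6 * i + 1) = 32 * U i ∧ Z (6 * i + 2) = 28 * U i ∧
    Z (6 * i + 3) = 63 * U i ∧ Z (6 * i + 4) = 54 * U i ∧ Z (6 * i + 5) = 81 * U i ∧
    Z (6 * i + 6) = 0 := by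
  refine ⟨?_, ?_, ?_, ?_, ?_, ?_, ?_⟩ <;> unfold Z
  · simp
  · rw [show (6 * i + 1) % 6 = 1 by omega, show (6 * i + 1) / 6 = i by omega]; simp
  · rw [show (6 * i + 2) % 6 = 2 by omega, show (6 * i + 2) / 6 = i by omega]; simp
  · rw [show (6 * i + 3) % 6 = 3 by omega, show (6 * i + 3) / 6 = i by omega]; simp
  · rw [show (6 * i + 4) % 6 = 4 by omega, show (6 * i + 4) / 6 = i by omega]; simp
  · rw [show (6 * i + 5) % 6 = 5 by omega, show (6 * i + 5) / 6 = i by omega]; simp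
  · rw [show (6 * i + 6) % 6 = 0 by omega]; simp

lemma Tv (i : ℕ) : tau Z (6 * i + 1) = tau Z (6 * i) + 32 * U i ∧
    tau Z (6 * i + 2) = tau Z (6 * i) + 36 * U i ∧ tau Z (6 * i + 3) = tau Z (6 * i) + 71 * U i ∧
    tau Z (6 * i + 4) = tau Z (6 * i) + 80 * U i ∧ tau Z (6 * i + 5) = tau Z (6 * i) + 107 * U i ∧
    tau Z (6 * i + 6) = tau Z (6 * i) + 188 * U i := by
  obtain ⟨z0, z1, z2, z3, z4, z5, z6⟩ := Zv i
  have hu := Upos i
  have t1 := tau_succ Z (6 * i)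
  have t2 : tau Z (6 * i + 2) = _ + |Z (6 * i + 2) - _| := tau_succ Z (6 * i + 1)
  have t3 : tau Z (6 * i + 3) = _ + |Z (6 * i + 3) - _| := tau_succ Z (6 * i + 2)
  have t4 : tau Z (6 * i + 4) = _ + |Z (6 * i + 4) - _| := tau_succ Z (6 * i + 3)
  have t5 : tau Z (6 * i + 5) = _ + |Z (6 * i + 5) - _| := tau_succ Z (6 * i + 4)
  have t6 : tau Z (6 * i + 6) = _ + |Z (6 * i + 6) - _| := tau_succ Z (6 * i + 5)
  rw [z0, z1, abs_of_pos (by linarith)] at t1
  rw [z1, z2, abs_of_neg (by linarith)] at t2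
  rw [z2, z3, abs_of_pos (by linarith)] at t3
  rw [z3, z4, abs_of_neg (by linarith)] at t4
  rw [z4, z5, abs_of_pos (by linarith)] at t5
  rw [z5, z6, abs_of_neg (by linarith)] at t6
  refine ⟨?_, ?_, ?_, ?_, ?_, ?_⟩ <;> linarith

lemma TZ (i : ℕ) : tau Z (6 * i) = 376 * U i - 376 * U 0 := by
  induction i with
  | zero => simp [tau]
  | succ n ih => rw [show 6 * (n + 1) = 6 * n + 6 by ring, (Tv n).2.2.2.2.2, ih, Us]; ring

lemma tendZ : Tendsto (tau Z) atTop atTop := by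
  refine tendsto_atTop_atTop_of_monotone (tau_mono Z) fun b => ?_
  obtain ⟨n, hn⟩ := pow_unbounded_of_one_lt (b + 7) (show (1:ℝ) < 3 / 2 by norm_num)
  refine ⟨6 * n, ?_⟩
  rw [TZ]; unfold U
  have hp : (0:ℝ) < (3 / 2) ^ n := by positivity
  norm_num
  linarith

lemma halfZ : IsHalf Z := by
  refine ⟨(Zv 0).1, fun n => ?_, fun n => ?_, fun n => ?_, tendZ⟩
  · unfold Z; have := Upos (n / 6); split_ifs <;> positivity
  all_goals
    obtain ⟨i, rfl | rfl | rfl⟩ : ∃ i, n = 3 * i ∨ n = 3 * i + 1 ∨ n = 3 * i + 2 := ⟨n / 3, by omega⟩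
  all_goals
    obtain ⟨z0, z1, z2, z3, z4, z5, z6⟩ := Zv i
    have hu := Upos i
  · rw [show 2 * (3 * i) = 6 * i by ring]; linarith
  · rw [show 2 * (3 * i + 1) = 6 * i + 2 by ring, show 6 * i + 2 + 1 = 6 * i + 3 from rfl]; linarith
  · rw [show 2 * (3 * i + 2) = 6 * i + 4 by ring, show 6 * i + 4 + 1 = 6 * i + 5 from rfl]; linarith
  · rw [show 2 * (3 * i) = 6 * i by ring]; linarith
  · rw [show 2 * (3 * i + 1) = 6 * i + 2 by ring, show 6 * i + 2 + 1 = 6 * i + 3 from rfl,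
      show 6 * i + 2 + 2 = 6 * i + 4 from rfl]; linarith
  · rw [show 2 * (3 * i + 2) = 6 * i + 4 by ring, show 6 * i + 4 + 1 = 6 * i + 5 from rfl,
      show 6 * i + 4 + 2 = 6 * i + 6 from rfl]; linarith

section
variable {x c : ℝ} {j0 : ℕ} (i : ℕ)

lemma c0 (h1 : 0 ≤ x) (h2 : x ≤ 32 * U i) :
    x ∈ uIcc (Z (6 * i)) (Z (6 * i + 1)) ∧ tau Z (6 * i) + |x - Z (6 * i)| ≤ 376 * U i + x := by
  obtain ⟨z0, z1, z2, z3, z4, z5, z6⟩ := Zv i
  have := Upos 0
  rw [z0, z1, TZ, abs_of_nonneg (by linarith)]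
  exact ⟨mem_uIcc.2 (Or.inl ⟨h1, h2⟩), by linarith⟩

lemma c5 (h1 : 0 ≤ x) (h2 : x ≤ 81 * U i) :
    x ∈ uIcc (Z (6 * i + 5)) (Z (6 * i + 5 + 1)) ∧
      tau Z (6 * i + 5) + |x - Z (6 * i + 5)| ≤ 564 * U i - x := by
  obtain ⟨z0, z1, z2, z3, z4, z5, z6⟩ := Zv i
  have := Upos 0
  rw [show 6 * i + 5 + 1 = 6 * i + 6 from rfl, z5, z6, (Tv i).2.2.2.2.1, TZ, abs_of_nonpos (by linarith)]
  exact ⟨mem_uIcc.2 (Or.inr ⟨h1, h2⟩), by linarith⟩

lemma g0 (h1 : 0 ≤ x) (h2 : x ≤ 32 * U i) (hg : Good Z x (6 * i + 1) c) :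
    Good Z x (6 * i) (1 / 3 * (376 * U i + x) + 2 / 3 * c) :=
  cons _ _ (by omega) (c0 i h1 h2).1 (c0 i h1 h2).2 hg

lemma g5 (h1 : 0 ≤ x) (h2 : x ≤ 81 * U i) (hj : 6 * i + 5 < j0) (hg : Good Z x j0 c) :
    Good Z x (6 * i + 5) (1 / 3 * (564 * U i - x) + 2 / 3 * c) :=
  cons _ _ hj (c5 i h1 h2).1 (c5 i h1 h2).2 hg

lemma g1 (h1 : 28 * U i ≤ x) (h2 : x ≤ 32 * U i) (hg : Good Z x (6 * i + 2) c) :
    Good Z x (6 * i + 1) (1 / 3 * (440 * U i - x) + 2 / 3 * c) := by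
  obtain ⟨z0, z1, z2, z3, z4, z5, z6⟩ := Zv i
  have := Upos 0
  refine cons _ _ (by omega) ?_ ?_ hg
  · rw [show 6 * i + 1 + 1 = 6 * i + 2 from rfl, z1, z2]; exact mem_uIcc.2 (Or.inr ⟨h1, h2⟩)
  · rw [z1, (Tv i).1, TZ, abs_of_nonpos (by linarith)]; linarith

lemma g2 (h1 : 28 * U i ≤ x) (h2 : x ≤ 63 * U i) (hj : 6 * i + 2 < j0) (hg : Good Z x j0 c) :
    Good Z x (6 * i + 2) (1 / 3 * (384 * U i + x) + 2 / 3 * c) := by
  obtain ⟨z0, z1, z2, z3, z4, z5, z6⟩ := Zv i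
  have := Upos 0
  refine cons _ _ hj ?_ ?_ hg
  · rw [show 6 * i + 2 + 1 = 6 * i + 3 from rfl, z2, z3]; exact mem_uIcc.2 (Or.inl ⟨h1, h2⟩)
  · rw [z2, (Tv i).2.1, TZ, abs_of_nonneg (by linarith)]; linarith

lemma g3 (h1 : 54 * U i ≤ x) (h2 : x ≤ 63 * U i) (hg : Good Z x (6 * i + 4) c) :
    Good Z x (6 * i + 3) (1 / 3 * (510 * U i - x) + 2 / 3 * c) := by
  obtain ⟨z0, z1, z2, z3, z4, z5, z6⟩ := Zv i
  have := Upos 0
  refine cons _ _ (by omega) ?_ ?_ hg
  · rw [show 6 * i + 3 + 1 = 6 * i + 4 from rfl, z3, z4]; exact mem_uIcc.2 (Or.inr ⟨h1, h2⟩)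
  · rw [z3, (Tv i).2.2.1, TZ, abs_of_nonpos (by linarith)]; linarith

lemma g4 (h1 : 54 * U i ≤ x) (h2 : x ≤ 81 * U i) (hg : Good Z x (6 * i + 5) c) :
    Good Z x (6 * i + 4) (1 / 3 * (402 * U i + x) + 2 / 3 * c) := by
  obtain ⟨z0, z1, z2, z3, z4, z5, z6⟩ := Zv i
  have := Upos 0
  refine cons _ _ (by omega) ?_ ?_ hg
  · rw [show 6 * i + 4 + 1 = 6 * i + 5 from rfl, z4, z5]; exact mem_uIcc.2 (Or.inl ⟨h1, h2⟩)
  · rw [z4, (Tv i).2.2.2.1, TZ, abs_of_nonneg (by linarith)]; linarith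

lemma Um (r : ℕ) : U (i + r) = U i * (3 / 2) ^ r := by unfold U; ring

lemma base (h1 : 0 ≤ x) (h2 : x ≤ 32 * U i) : Good Z x (6 * i) (752 * U i + x / 5) := by
  have hu := Upos i
  have hr : ∀ r, U i ≤ U (i + r) := fun r => by
    rw [Um]; exact le_mul_of_one_le_right hu.le (one_le_pow₀ (by norm_num))
  have e0 : ∀ r, 6 * (i + 2 * r / 2) + 5 * (2 * r % 2) = 6 * (i + r) := fun r => by omega
  have e1 : ∀ r, 6 * (i + (2 * r + 1) / 2) + 5 * ((2 * r + 1) % 2) = 6 * (i + r) + 5 := fun r => by omega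
  refine ⟨by positivity, fun k => 6 * (i + k / 2) + 5 * (k % 2), strictMono_nat_of_lt_succ fun k => by
    omega, by simp, fun k => ?_, ?_⟩
  · rcases Nat.even_or_odd' k with ⟨r, rfl | rfl⟩
    · simp only [e0]; exact (c0 _ h1 (by linarith [hr r])).1
    · simp only [e1]; exact (c5 _ h1 (by linarith [hr r])).1
  · rw [← tsum_even_add_odd ENNReal.summable ENNReal.summable, ← ENNReal.tsum_add]
    simp only [e0, e1]
    have g1 := (hasSum_geometric_of_lt_one (r := (2 / 3 : ℝ)) (by norm_num) (by norm_num)).mul_left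
      (752 / 3 * U i)
    have g2 := (hasSum_geometric_of_lt_one (r := (4 / 9 : ℝ)) (by norm_num) (by norm_num)).mul_left
      (x / 9)
    have g3 := g1.add g2
    rw [show 752 / 3 * U i * (1 - 2 / 3 : ℝ)⁻¹ + x / 9 * (1 - 4 / 9)⁻¹ = 752 * U i + x / 5 by
      norm_num; ring] at g3
    rw [← g3.tsum_eq, ENNReal.ofReal_tsum_of_nonneg (fun k => by positivity) g3.summable]
    refine ENNReal.tsum_le_tsum fun r => ?_
    have b0 := (c0 (i + r) h1 (by linarith [hr r])).2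
    have b5 := (c5 (i + r) h1 (by linarith [hr r])).2
    refine (add_le_add (mul_le_mul_right (ENNReal.ofReal_le_ofReal b0) _)
      (mul_le_mul_right (ENNReal.ofReal_le_ofReal b5) _)).trans (le_of_eq ?_)
    have hx : 0 ≤ 564 * U (i + r) - x := by linarith [hr r]
    have hp := Upos (i + r)
    rw [← ENNReal.ofReal_mul (by positivity), ← ENNReal.ofReal_mul (by positivity),
      ← ENNReal.ofReal_add (by positivity) (by positivity), Um]
    congr 1
    have a1 : (4 / 9 : ℝ) ^ r = (2 / 3) ^ r * (2 / 3) ^ r := by rw [← mul_pow]; norm_num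
    have a2 : (2 / 3 : ℝ) ^ r * (3 / 2) ^ r = 1 := by rw [← mul_pow]; norm_num
    have a3 : (2 / 3 : ℝ) ^ (2 * r) = (2 / 3) ^ r * (2 / 3) ^ r := by ring
    rw [pow_succ, a1, a3]
    linear_combination (752 / 3 * U i * (2 / 3) ^ r) * a2

end

lemma bound (x : ℝ) (hx : 1 ≤ x) : ETc (1 / 3) Z x ≤ ENNReal.ofReal (219 / 20 * x) := by
  obtain ⟨i, h1, h2⟩ := exists_nat_pow_near hx (show (1:ℝ) < 3 / 2 by norm_num)
  have hu := Upos i
  have l1 : 54 * U i ≤ x := by unfold U; linarith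
  have l2 : x ≤ 81 * U i := by unfold U; rw [pow_succ] at h2; linarith
  have u1 := Us i
  have u2 := Us (i + 1)
  have u3 := Us (i + 1 + 1)
  have x0 : 0 ≤ x := by linarith
  rcases le_total x (63 * U i) with a | a
  · refine (good_le tendZ (g2 i (by linarith) a (by omega) (g3 i l1 a (g4 i l1 l2 (g5 i x0 l2 (by omega)
      (g2 (i + 1) (by linarith) (by linarith) (by omega) (g5 (i + 1) x0 (by linarith) (by omega)
      (base (i + 1 + 1) x0 (by linarith))))))))).trans (ENNReal.ofReal_le_ofReal ?_)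
    linarith
  rcases le_total x (72 * U i) with b | b
  · refine (good_le tendZ (g4 i l1 l2 (g5 i x0 l2 (by omega)
      (g2 (i + 1) (by linarith) (by linarith) (by omega) (g5 (i + 1) x0 (by linarith) (by omega)
      (g0 (i + 1 + 1) x0 (by linarith) (g1 (i + 1 + 1) (by linarith) (by linarith)
      (g2 (i + 1 + 1) (by linarith) (by linarith) (by omega) (g5 (i + 1 + 1) x0 (by linarith) (by omega)
      (base (i + 1 + 1 + 1) x0 (by linarith))))))))))).trans (ENNReal.ofReal_le_ofReal ?_)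
    linarith
  · refine (good_le tendZ (g4 i l1 l2 (g5 i x0 l2 (by omega)
      (g2 (i + 1) (by linarith) (by linarith) (by omega) (g5 (i + 1) x0 (by linarith) (by omega)
      (g2 (i + 1 + 1) (by linarith) (by linarith) (by omega) (g5 (i + 1 + 1) x0 (by linarith) (by omega)
      (base (i + 1 + 1 + 1) x0 (by linarith))))))))).trans (ENNReal.ofReal_le_ofReal ?_)
    linarith

theorem result : ∃ p ∈ Ioo (0 : ℝ) 1, ∃ t, IsHalf t ∧ CH p t < ENNReal.ofReal (4 - p) := by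
  refine ⟨1 / 3, ⟨by norm_num, by norm_num⟩, Z, halfZ, ?_⟩
  refine lt_of_le_of_lt (b := ENNReal.ofReal (1 / 3 * (219 / 20))) ?_
    ((ENNReal.ofReal_lt_ofReal_iff (by norm_num)).2 (by norm_num))
  refine iSup₂_le fun h hh => ?_
  refine ENNReal.div_le_of_le_mul ?_
  refine (mul_le_mul_right (bound h hh) _).trans (le_of_eq ?_)
  rw [← ENNReal.ofReal_mul (by norm_num), ← ENNReal.ofReal_mul (by norm_num)]
  congr 1; ring

end Pool.Agent.Results.MP_1aa7fe_lc.Below
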